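import Pool.Agent.Lib.MP_6bc78b_nt.MS.P3.Iface

/-! MJ: the majorant. -/

set_option autoImplicit false

open Complex Filter Topology MeasureTheory

namespace Pool.Agent.Lib.MP_6bc78b_nt.MS.P3.H18

theorem mj1 {L x y z : ℝ} (hL : 0 < L) (hx : 0 ≤ x) (hy : 0 ≤ y) (hz : 0 < z) :
    min x L * min y L / min z L ≤ x * y / z + Real.sqrt (x * y) := by
  have hp0 : 0 ≤ min x L := le_min hx hL.le
  have hq0 : 0 ≤ min y L := le_min hy hL.le
  have hs : 0 ≤ Real.sqrt (x * y) := Real.sqrt_nonneg _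
  have hxy : min x L * min y L ≤ x * y := mul_le_mul (min_le_left _ _) (min_le_left _ _) hq0 hx
  rcases le_or_gt z L with h | h
  · rw [min_eq_left h]
    have : min x L * min y L / z ≤ x * y / z := by gcongr
    linarith
  · rw [min_eq_right h.le]
    have h1 : min x L * min y L / L ≤ min y L := by
      rw [div_le_iff₀ hL, mul_comm (min y L)]
      exact mul_le_mul_of_nonneg_right (min_le_right _ _) hq0
    have h2 : min x L * min y L / L ≤ min x L := by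
      rw [div_le_iff₀ hL]
      exact mul_le_mul_of_nonneg_left (min_le_right _ _) hp0
    have h0 : 0 ≤ min x L * min y L / L := by positivity
    have h3 : min x L * min y L / L ≤ Real.sqrt (x * y) := by
      apply Real.le_sqrt_of_sq_le
      calc (min x L * min y L / L) ^ 2 = (min x L * min y L / L) * (min x L * min y L / L) := sq _
        _ ≤ min x L * min y L := mul_le_mul h2 h1 h0 hp0
        _ ≤ x * y := hxy
    have h4 : 0 ≤ x * y / z := by positivity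
    linarith

theorem ln_re (u : ℝ) : (ln u).re = 2 := by simp [ln]

theorem ln_im (u : ℝ) : (ln u).im = u := by simp [ln]

theorem ln_norm (u : ℝ) : 2 ≤ ‖ln u‖ := by
  have := Complex.abs_re_le_norm (ln u)
  rw [ln_re, abs_two] at this
  exact this

theorem ln_norm' (u : ℝ) : (1 + |u|) / 2 ≤ ‖ln u‖ := by
  have h1 := ln_norm u
  have h2 := Complex.abs_im_le_norm (ln u)
  rw [ln_im] at h2
  linarith

theorem ln_cont : Continuous ln := by unfold ln; fun_prop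

/-- the basic integrable function -/
noncomputable def FF (u : ℝ) : ℝ := ‖ln u‖ ^ (-(6 / 5) : ℝ)

theorem FF_nonneg (u : ℝ) : 0 ≤ FF u := Real.rpow_nonneg (norm_nonneg _) _

theorem FF_cont : Continuous FF := by
  unfold FF
  exact ln_cont.norm.rpow_const fun u => Or.inl (by linarith [ln_norm u])

theorem FF_int : Integrable FF := by
  have h : Integrable (fun u : ℝ => (2 : ℝ) ^ (6 / 5 : ℝ) * (1 + ‖u‖) ^ (-(6 / 5) : ℝ)) := by
    refine (integrable_one_add_norm ?_).const_mul _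
    norm_num
  refine h.mono' FF_cont.aestronglyMeasurable (Eventually.of_forall fun u => ?_)
  rw [Real.norm_eq_abs, abs_of_nonneg (FF_nonneg u), Real.norm_eq_abs]
  unfold FF
  have h1 : 0 < (1 + |u|) / 2 := by positivity
  refine (Real.rpow_le_rpow_of_nonpos h1 (ln_norm' u) (by norm_num)).trans (le_of_eq ?_)
  rw [Real.div_rpow (by positivity) (by norm_num), Real.rpow_neg (by norm_num : (0 : ℝ) ≤ 2)]
  field_simp

/-- `a^(-p) b^(-q) ≤ a^(-6/5) + b^(-6/5)`, `p + q = 6/5` -/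
theorem amgm {a b p q : ℝ} (ha : 0 < a) (hb : 0 < b) (hp : 0 ≤ p) (hq : 0 ≤ q)
    (h : p + q = 6 / 5) : a ^ (-p) * b ^ (-q) ≤ a ^ (-(6 / 5) : ℝ) + b ^ (-(6 / 5) : ℝ) := by
  have ha' : 0 ≤ a ^ (-(6 / 5) : ℝ) := Real.rpow_nonneg ha.le _
  have hb' : 0 ≤ b ^ (-(6 / 5) : ℝ) := Real.rpow_nonneg hb.le _
  rcases le_total a b with hab | hab
  · have h1 : b ^ (-q) ≤ a ^ (-q) := Real.rpow_le_rpow_of_nonpos ha hab (by linarith)
    calc a ^ (-p) * b ^ (-q) ≤ a ^ (-p) * a ^ (-q) :=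
          mul_le_mul_of_nonneg_left h1 (Real.rpow_nonneg ha.le _)
      _ = a ^ (-(6 / 5) : ℝ) := by rw [← Real.rpow_add ha]; congr 1; linarith
      _ ≤ _ := by linarith
  · have h1 : a ^ (-p) ≤ b ^ (-p) := Real.rpow_le_rpow_of_nonpos hb hab (by linarith)
    calc a ^ (-p) * b ^ (-q) ≤ b ^ (-p) * b ^ (-q) :=
          mul_le_mul_of_nonneg_right h1 (Real.rpow_nonneg hb.le _)
      _ = b ^ (-(6 / 5) : ℝ) := by rw [← Real.rpow_add hb]; congr 1; linarith
      _ ≤ _ := by linarith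

theorem ln_add_norm (u : ℝ) {W : ℂ} (hW : W.re = 2) : ‖ln (u + W.im)‖ ≤ ‖ln u + W‖ := by
  rw [Complex.norm_def, Complex.norm_def]
  apply Real.sqrt_le_sqrt
  rw [Complex.normSq_apply, Complex.normSq_apply, ln_re, ln_im, Complex.add_re, Complex.add_im,
    ln_re, ln_im, hW]
  linarith

theorem ptw (u : ℝ) {W : ℂ} (hW : W.re = 2) :
    (‖ln u‖ * ‖W‖ / ‖ln u + W‖ + Real.sqrt (‖ln u‖ * ‖W‖)) * ‖ln u‖ ^ (-(17 / 10) : ℝ) ≤
      ‖W‖ ^ (1 / 2 : ℝ) * (3 * FF u + 2 * FF (u + W.im)) := by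
  have hV : 0 < ‖ln u‖ := by linarith [ln_norm u]
  have hVW1 := ln_add_norm u hW
  have hVW0 : 0 < ‖ln (u + W.im)‖ := by linarith [ln_norm (u + W.im)]
  have hVW : 0 < ‖ln u + W‖ := lt_of_lt_of_le hVW0 hVW1
  have hW0 : 0 < ‖W‖ := by
    have := Complex.abs_re_le_norm W
    rw [hW, abs_two] at this
    linarith
  have hFF2 : ‖ln u + W‖ ^ (-(6 / 5) : ℝ) ≤ FF (u + W.im) :=
    Real.rpow_le_rpow_of_nonpos hVW0 hVW1 (by norm_num)
  set v := ‖ln u‖ with hv
  set b := ‖ln u + W‖ with hb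
  set w := ‖W‖ with hw
  have hFu : FF u = v ^ (-(6 / 5) : ℝ) := rfl
  -- second term
  have t2 : Real.sqrt (v * w) * v ^ (-(17 / 10) : ℝ) = w ^ (1 / 2 : ℝ) * FF u := by
    rw [hFu, Real.sqrt_eq_rpow, Real.mul_rpow hV.le hW0.le, mul_comm (v ^ (1 / 2 : ℝ)), mul_assoc,
      ← Real.rpow_add hV]
    congr 2
    norm_num
  -- first term
  have hwb : w ^ (1 / 2 : ℝ) ≤ v ^ (1 / 2 : ℝ) + b ^ (1 / 2 : ℝ) := by
    have h1 : w ≤ v + b := by
      have : W = (ln u + W) - ln u := by ring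
      calc w = ‖(ln u + W) - ln u‖ := by rw [← this]
        _ ≤ ‖ln u + W‖ + ‖ln u‖ := norm_sub_le _ _
        _ = v + b := by rw [add_comm]
    calc w ^ (1 / 2 : ℝ) ≤ (v + b) ^ (1 / 2 : ℝ) :=
          Real.rpow_le_rpow hW0.le h1 (by norm_num)
      _ ≤ v ^ (1 / 2 : ℝ) + b ^ (1 / 2 : ℝ) :=
          Real.rpow_add_le_add_rpow hV.le hVW.le (by norm_num) (by norm_num)
  have t1 : v * w / b * v ^ (-(17 / 10) : ℝ) ≤
      w ^ (1 / 2 : ℝ) * (2 * (v ^ (-(6 / 5) : ℝ) + b ^ (-(6 / 5) : ℝ))) := by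
    have e1 : v * w / b * v ^ (-(17 / 10) : ℝ) =
        w ^ (1 / 2 : ℝ) * (w ^ (1 / 2 : ℝ) * (v ^ (-(7 / 10) : ℝ) * b⁻¹)) := by
      have e2 : w = w ^ (1 / 2 : ℝ) * w ^ (1 / 2 : ℝ) := by
        rw [← Real.rpow_add hW0]; norm_num
      have e3 : v * v ^ (-(17 / 10) : ℝ) = v ^ (-(7 / 10) : ℝ) := by
        nth_rewrite 1 [← Real.rpow_one v]
        rw [← Real.rpow_add hV]; norm_num
      rw [← e3]
      nth_rewrite 1 [e2]
      rw [div_eq_mul_inv]
      ring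
    have hk : 0 ≤ v ^ (-(7 / 10) : ℝ) * b⁻¹ :=
      mul_nonneg (Real.rpow_nonneg hV.le _) (inv_nonneg.2 hVW.le)
    rw [e1]
    refine mul_le_mul_of_nonneg_left ?_ (Real.rpow_nonneg hW0.le _)
    refine (mul_le_mul_of_nonneg_right hwb hk).trans ?_
    have f1 : v ^ (1 / 2 : ℝ) * (v ^ (-(7 / 10) : ℝ) * b⁻¹) =
        v ^ (-(1 / 5) : ℝ) * b ^ (-1 : ℝ) := by
      rw [← mul_assoc, ← Real.rpow_add hV, Real.rpow_neg_one]; norm_num
    have f2 : b ^ (1 / 2 : ℝ) * (v ^ (-(7 / 10) : ℝ) * b⁻¹) =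
        v ^ (-(7 / 10) : ℝ) * b ^ (-(1 / 2) : ℝ) := by
      rw [← Real.rpow_neg_one b, mul_left_comm, ← Real.rpow_add hVW]; norm_num
    rw [add_mul, f1, f2]
    have g1 := amgm hV hVW (p := 1 / 5) (q := 1) (by norm_num) (by norm_num) (by norm_num)
    have g2 := amgm hV hVW (p := 7 / 10) (q := 1 / 2) (by norm_num) (by norm_num) (by norm_num)
    linarith
  rw [add_mul, t2]
  have hwn : 0 ≤ w ^ (1 / 2 : ℝ) := Real.rpow_nonneg hW0.le _
  calc v * w / b * v ^ (-(17 / 10) : ℝ) + w ^ (1 / 2 : ℝ) * FF u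
      ≤ w ^ (1 / 2 : ℝ) * (2 * (v ^ (-(6 / 5) : ℝ) + b ^ (-(6 / 5) : ℝ))) +
        w ^ (1 / 2 : ℝ) * FF u := by linarith
    _ = w ^ (1 / 2 : ℝ) * (3 * FF u + 2 * b ^ (-(6 / 5) : ℝ)) := by rw [hFu]; ring
    _ ≤ w ^ (1 / 2 : ℝ) * (3 * FF u + 2 * FF (u + W.im)) :=
        mul_le_mul_of_nonneg_left (by linarith) hwn

theorem mj : MjStatement := by
  refine ⟨fun L x y z hL hx hy hz => mj1 hL hx hy hz, 5 * ∫ u, FF u, fun W hW => ?_⟩
  have hi2 : Integrable (fun u => FF (u + W.im)) := FF_int.comp_add_right W.im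
  have hmaj : Integrable (fun u => ‖W‖ ^ (1 / 2 : ℝ) * (3 * FF u + 2 * FF (u + W.im))) :=
    ((FF_int.const_mul 3).add (hi2.const_mul 2)).const_mul _
  have hne : ∀ u, ‖ln u + W‖ ≠ 0 := fun u => by
    have := ln_add_norm u hW
    linarith [ln_norm (u + W.im)]
  have hc : Continuous (fun u : ℝ => (‖ln u‖ * ‖W‖ / ‖ln u + W‖ +
      Real.sqrt (‖ln u‖ * ‖W‖)) * ‖ln u‖ ^ (-(17 / 10) : ℝ)) := by
    refine Continuous.mul (Continuous.add (Continuous.div ?_ ?_ hne) ?_) ?_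
    · exact ln_cont.norm.mul continuous_const
    · exact (ln_cont.add continuous_const).norm
    · exact (ln_cont.norm.mul continuous_const).sqrt
    · exact ln_cont.norm.rpow_const fun u => Or.inl (by linarith [ln_norm u])
  have hint : Integrable (fun u : ℝ => (‖ln u‖ * ‖W‖ / ‖ln u + W‖ +
      Real.sqrt (‖ln u‖ * ‖W‖)) * ‖ln u‖ ^ (-(17 / 10) : ℝ)) := by
    refine hmaj.mono' hc.aestronglyMeasurable (Eventually.of_forall fun u => ?_)
    rw [Real.norm_eq_abs, abs_of_nonneg (by positivity)]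
    exact ptw u hW
  refine ⟨hint, (integral_mono hint hmaj fun u => ptw u hW).trans (le_of_eq ?_)⟩
  rw [integral_const_mul, integral_add (FF_int.const_mul 3) (hi2.const_mul 2),
    integral_const_mul, integral_const_mul, integral_add_right_eq_self FF]
  ring

end Pool.Agent.Lib.MP_6bc78b_nt.MS.P3.H18
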